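import Pool.Agent.Run7.h764.QFin

/-!
# Spherical sets with at most `dim + 2` points are Ramsey

A finite set `X` of points of a sphere with `|X| ≤ dim aff X + 2`, that is a simplex, or a simplex
together with one further point of its sphere, is Ramsey. For instance every set of four points of
a circle is Ramsey; the kites `K_a` are such sets.

The proof generalises the argument of the starting files `Pool.Agent.N479.SK` (isosceles triangles)
from the weights `1 - 2 l, l, l` to arbitrary weights: the new gadget is `Run7.h764.QGad`.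
-/

set_option autoImplicit false

namespace Pool.Agent.Results.MP_5f8029_co.SimplexAndPoint

open Pool.Agent.Run7.h764.Q Pool.Agent.N479.SK Pool.Agent.N479.ER

/-- The inclusion of `ℝ^m` in `ℝ^n` by the first `m` coordinates (`m ≤ n`). -/
noncomputable def incl {m : ℕ} (n : ℕ) (x : EuclideanSpace ℝ (Fin m)) :
    EuclideanSpace ℝ (Fin n) :=
  WithLp.toLp 2 (fun j : Fin n => if h : (j : ℕ) < m then x ⟨j, h⟩ else 0)

/-- `X ⊆ ℝ^m` is Ramsey: for every positive integer `k` there is `n ≥ m` such that for every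
colouring `c` of `ℝ^n` with `k` colours there is an isometry `φ` of `ℝ^n` for which `φ X` is
monochromatic. -/
def IsRamsey {m : ℕ} (X : Set (EuclideanSpace ℝ (Fin m))) : Prop :=
  ∀ k : ℕ, 0 < k → ∃ n : ℕ, m ≤ n ∧ ∀ c : EuclideanSpace ℝ (Fin n) → Fin k,
    ∃ φ : EuclideanSpace ℝ (Fin n) ≃ᵢ EuclideanSpace ℝ (Fin n), ∃ i : Fin k,
      ∀ x ∈ X, c (φ (incl n x)) = i

/-- from families found monochromatic to Ramsey sets -/
lemma isRamsey_of {m : ℕ} {P : Type} [Finite P] [Nonempty P] (x : P → EuclideanSpace ℝ (Fin m))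
    (h : GoodE (fun p q => sq (x p).ofLp (x q).ofLp)) (X : Set (EuclideanSpace ℝ (Fin m)))
    (hX : X ⊆ Set.range x) : IsRamsey X := by
  intro k hk
  obtain ⟨n, hn, H⟩ := ramsey_of (k := k) x (by
    obtain ⟨ι, i, W, H⟩ := h (Fin k)
    refine ⟨ι, i, fun c => ?_⟩
    obtain ⟨f, -, hf, -, hc⟩ := H c
    exact ⟨f, hf, hc⟩)
  refine ⟨n, hn, fun c => ?_⟩
  obtain ⟨φ, hφ⟩ := H c
  obtain ⟨p₀⟩ := ‹Nonempty P›
  refine ⟨φ, c (φ (incl n (x p₀))), fun y hy => ?_⟩
  obtain ⟨p, rfl⟩ := hX hy
  exact hφ p p₀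

/-- Every finite spherical set `X` with `|X| ≤ dim aff X + 2` is Ramsey. -/
theorem result : ∀ (m : ℕ) (X : Set (EuclideanSpace ℝ (Fin m))), X.Finite →
    (∃ (o : EuclideanSpace ℝ (Fin m)) (r : ℝ), ∀ x ∈ X, dist x o = r) →
    X.ncard ≤ Module.finrank ℝ (vectorSpan ℝ X) + 2 → IsRamsey X := by
  classical
  rintro m X hfin ⟨o, r, hr⟩ hcard
  rcases X.eq_empty_or_nonempty with rfl | hne
  · intro k hk
    exact ⟨m, le_rfl, fun c => ⟨IsometryEquiv.refl _, ⟨0, hk⟩, by simp⟩⟩
  obtain ⟨t, htX, hspan, hind⟩ := exists_affineIndependent ℝ (EuclideanSpace ℝ (Fin m)) X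
  have htf : t.Finite := hfin.subset htX
  have htne : t.Nonempty := by
    rw [Set.nonempty_iff_ne_empty]
    rintro rfl
    rw [AffineSubspace.span_empty] at hspan
    obtain ⟨x, hx⟩ := hne
    have := mem_affineSpan ℝ hx
    rw [← hspan] at this
    exact this
  have : Fintype t := htf.fintype
  have : Nonempty t := htne.to_subtype
  have hdim : Module.finrank ℝ (vectorSpan ℝ X) + 1 = t.ncard := by
    have h1 := hind.finrank_vectorSpan_add_one
    rw [Subtype.range_coe_subtype, Set.ofPred_mem_eq] at h1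
    rw [← direction_affineSpan, ← hspan, direction_affineSpan, h1, ← Nat.card_eq_fintype_card,
      Nat.card_coe_set_eq]
  have hrange : Set.range ((↑) : t → EuclideanSpace ℝ (Fin m)) = t := Subtype.range_coe
  by_cases hXt : X ⊆ t
  · exact isRamsey_of ((↑) : t → EuclideanSpace ℝ (Fin m)) (good_simplex _ hind) X
      (by rwa [hrange])
  · obtain ⟨z, hzX, hzt⟩ := Set.not_subset.mp hXt
    have hXz : X ⊆ insert z t := by
      have h1 : (insert z t).ncard = t.ncard + 1 := Set.ncard_insert_of_notMem hzt htf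
      have h2 : insert z t = X := Set.eq_of_subset_of_ncard_le (Set.insert_subset hzX htX)
        (by omega) hfin
      rw [h2]
    have hG := good_simplex_point ((↑) : t → EuclideanSpace ℝ (Fin m)) hind z
      (fun j hj => hzt (hj ▸ j.2)) (by rw [hrange, hspan]; exact mem_affineSpan ℝ hzX) o r
      (fun j => hr _ (htX j.2)) (hr z hzX)
    refine isRamsey_of (fun a : Option t => a.elim z (↑)) hG X (hXz.trans ?_)
    rintro y (rfl | hy)
    · exact ⟨none, rfl⟩
    · exact ⟨some ⟨y, hy⟩, rfl⟩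

end Pool.Agent.Results.MP_5f8029_co.SimplexAndPoint
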